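import Pool.Agent.MP_800a79_co.Mg.H62_Cells

set_option autoImplicit false

open Set Classical Pool.Agent.MP_800a79_co.H62

/-- `m` lines in general position in space determine at most `10^26 m^(3/2)` elementary cycles.
Line `i` is `s ↦ (p i + s • d i, h i + s * e i)`.  The four hypotheses say: no line is vertical, no
two are parallel, no two meet, no vertical line meets three.  `F` is any finite set of bounded
cells of the projected arrangement whose bounding lines each pass above the next one, in the
counterclockwise or in the clockwise order: for a vertex `v = p i + s • d i = p j + t • d j` of the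
cell and a point `q` of the cell, the product of the three determinants is positive exactly when
the side on line `i` comes just before the side on line `j` in the counterclockwise order. -/
theorem Pool.Agent.Results.MP_800a79_co.Optimal.result :
    ∀ (m : ℕ) (p d : Fin m → ℝ × ℝ) (h e : Fin m → ℝ),
      (∀ i, d i ≠ 0) →
      (∀ i j : Fin m, i ≠ j → ∀ c : ℝ, ¬ (d i = c • d j ∧ e i = c * e j)) →
      (∀ i j : Fin m, i ≠ j → ∀ s t : ℝ,
          ¬ (p i + s • d i = p j + t • d j ∧ h i + s * e i = h j + t * e j)) →
      (∀ i j k : Fin m, i ≠ j → j ≠ k → i ≠ k → ∀ x : ℝ × ℝ,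
          ¬ ((∃ s : ℝ, x = p i + s • d i) ∧ (∃ s : ℝ, x = p j + s • d j) ∧
             (∃ s : ℝ, x = p k + s • d k))) →
      ∀ F : Finset (Set (ℝ × ℝ)),
        (∀ C ∈ F, ∃ q ∈ (⋃ i, Set.range (fun s : ℝ => p i + s • d i))ᶜ,
          C = connectedComponentIn (⋃ i, Set.range (fun s : ℝ => p i + s • d i))ᶜ q ∧
          Bornology.IsBounded C ∧
          ((∀ i j : Fin m, ∀ s t : ℝ, i ≠ j → p i + s • d i = p j + t • d j →
              p i + s • d i ∈ closure C →
              0 < ((d j).1 * (d i).2 - (d j).2 * (d i).1) *
                  ((d j).1 * (q - (p i + s • d i)).2 - (d j).2 * (q - (p i + s • d i)).1) *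
                  ((q - (p i + s • d i)).1 * (d i).2 - (q - (p i + s • d i)).2 * (d i).1) →
              h j + t * e j < h i + s * e i) ∨
           (∀ i j : Fin m, ∀ s t : ℝ, i ≠ j → p i + s • d i = p j + t • d j →
              p i + s • d i ∈ closure C →
              0 < ((d j).1 * (d i).2 - (d j).2 * (d i).1) *
                  ((d j).1 * (q - (p i + s • d i)).2 - (d j).2 * (q - (p i + s • d i)).1) *
                  ((q - (p i + s • d i)).1 * (d i).2 - (q - (p i + s • d i)).2 * (d i).1) →
              h i + s * e i < h j + t * e j))) →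
        (F.card : ℝ) ≤ 10 ^ 26 * (m : ℝ) ^ ((3 : ℝ) / 2) := by
  intro m p d h e h1 h2 h3 h4 F hF
  have hG := gp_of h1 h2 h3 h4
  have key : ∀ C ∈ F, ∃ q, (∀ i, sd p d i q ≠ 0) ∧ C = Ko p d q ∧
      ∃ c : Cyc p d h e, c.shadow ⊆ Kb p d q := by
    intro C hC
    obtain ⟨q, hq, e1, hb, H⟩ := hF C hC
    rw [mem_U h1] at hq
    rw [comp_eq h1 hq] at e1
    subst e1
    have hb' := hb.closure
    rw [closure_Ko hq] at hb' H
    refine ⟨q, hq, rfl, ?_⟩
    rcases H with H | H
    · refine elem_cyc h1 hq hb' (σ := -1) (by norm_num) (fun i j s t hij a b o => ?_)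
      refine H j i t s hij.symm a.symm (a ▸ b) ?_
      rw [← a]
      simp only [ori] at o
      linarith
    · exact elem_cyc h1 hq hb' one_ne_zero (fun i j s t hij a b o => H i j s t hij a b
        (by simpa only [ori, one_mul] using o))
  choose q k1 k2 c k3 using key
  have := cycles_bound (α := F) hG (c := fun a => c a.1 a.2) (fun x => by
    rw [← Finset.card_image_of_injective _ Subtype.val_injective]
    refine four_cells hG x _ (fun C hC => ?_)
    obtain ⟨a, ha, rfl⟩ := Finset.mem_image.1 hC
    exact ⟨q a.1 a.2, k1 _ _, k2 _ _, k3 _ _ (Finset.mem_filter.1 ha).2⟩)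
  simpa using this
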